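import Pool.Agent.helper21.GR.Odd6

/-!
# Gallai-Ramsey numbers of complete graphs, odd number of colours

There are absolute constants `C` and `κ` such that for all `s ≥ 0` and `t ≥ 3`
`GR_{2s+1}(K_t) - 1 ≤ (C t ^ κ) ^ (2 s + 1) (R_2(K_t) - 1) ^ s`.

Idea of the proof.  Put `m = t - 1`, `ρ = R_2(K_t) - 1`.  Let `W(x) = (64 m) ^ (x - 1) / (x - 1)!`,
capped at the first value `L ≥ ρ` (so `L ≤ 64 m ρ`).  For a set `B` of colours of odd size let
`F_B(A) = L ^ ((|B| - 1) / 2) ∏_{l ∈ B} A_l ^ κ ∏_{l ∉ B} A_l ^ κ W(A_l)` and let `F(A)` be the minimum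
of `F_B(A)` over all such `B`.  One shows that `F` satisfies the two-colour inequality
`∑ F(A with A_i = x_v, A_j = y_v) ≤ F(A)` for two-coloured complete graphs whose cliques of the first
colour have `x`-weight at most `A_i ≤ m` and whose cliques of the second colour have `y`-weight at
most `A_j ≤ m`.  Contracting homogeneous sets (Gallai) gives `n ≤ F(m, ..., m) ≤ L ^ s m ^ (κ (2 s + 1))`
for every Gallai colouring of `K_n` with `2 s + 1` colours and no monochromatic `K_t`.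
-/

set_option autoImplicit false

namespace Pool.Agent.Results.MP_89787e_co.OddColours

open Pool.Agent.helper21.GR

/-- `R_2(K_t)`: the least `n` such that every two-colouring of the edges of `K_n` contains a
monochromatic `K_t`. -/
noncomputable def ramsey (t : ℕ) : ℕ :=
  sInf {n : ℕ | ∀ f : Fin n → Fin n → Fin 2, (∀ a b : Fin n, f a b = f b a) →
    ∃ S : Finset (Fin n), S.card = t ∧ ∃ i : Fin 2, ∀ x ∈ S, ∀ y ∈ S, x ≠ y → f x y = i}

/-- The set of all `n` such that every `k`-colouring of the edges of `K_n` without rainbow triangle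
contains a monochromatic `K_t`. -/
def gallaiSet (k t : ℕ) : Set ℕ :=
  {n : ℕ | ∀ f : Fin n → Fin n → Fin k, (∀ a b : Fin n, f a b = f b a) →
    (∀ a b c : Fin n, a ≠ b → b ≠ c → a ≠ c → f a b = f b c ∨ f b c = f a c ∨ f a b = f a c) →
    ∃ S : Finset (Fin n), S.card = t ∧ ∃ i : Fin k, ∀ x ∈ S, ∀ y ∈ S, x ≠ y → f x y = i}

/-- `GR_k(K_t)`: the least element of `gallaiSet k t`. -/
noncomputable def gallaiRamsey (k t : ℕ) : ℕ := sInf (gallaiSet k t)

/-- There are absolute constants `C`, `κ` such that for all `s ≥ 0` and `t ≥ 3` the Gallai-Ramsey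
number for `2 s + 1` colours exists and
`GR_{2s+1}(K_t) - 1 ≤ (C t ^ κ) ^ (2 s + 1) (R_2(K_t) - 1) ^ s`. -/
theorem result : ∃ (C : ℝ) (κ : ℕ), ∀ s t : ℕ, 3 ≤ t →
    (gallaiSet (2 * s + 1) t).Nonempty ∧
    (gallaiRamsey (2 * s + 1) t : ℝ) - 1 ≤
      (C * (t : ℝ) ^ κ) ^ (2 * s + 1) * ((ramsey t : ℝ) - 1) ^ s := by
  obtain ⟨C, hC, hmain⟩ := main_odd
  refine ⟨C, kp + 1, fun s t ht => ?_⟩
  have hρ := one_le_rho ht
  have hR : ((sInf (RSet t) - 1 : ℕ) : ℝ) = (ramsey t : ℝ) - 1 := by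
    have : 1 ≤ sInf (RSet t) := by
      by_contra hcon
      have h0 : sInf (RSet t) - 1 = 0 := by omega
      rw [h0] at hρ
      norm_num at hρ
    rw [Nat.cast_sub this]
    simp only [ramsey, RSet, Nat.cast_one]
  have hs : (2 * s + 1 - 1) / 2 = s := by omega
  obtain ⟨x, hx⟩ : ∃ x : ℝ, x = (C * (t : ℝ) ^ (kp + 1)) ^ (2 * s + 1) *
      ((ramsey t : ℝ) - 1) ^ s := ⟨_, rfl⟩
  have hx0 : 0 ≤ x := by
    rw [hx, ← hR]
    positivity
  have hmem : ⌊x⌋₊ + 1 ∈ gallaiSet (2 * s + 1) t := by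
    intro f hf hg
    by_contra hno
    have h1 := hmain (2 * s + 1) t _ ⟨s, rfl⟩ ht f hf hg hno
    rw [hs, hR, ← hx] at h1
    have h3 := Nat.lt_floor_add_one x
    push_cast at h1
    linarith
  refine ⟨⟨_, hmem⟩, ?_⟩
  have h1 : gallaiRamsey (2 * s + 1) t ≤ ⌊x⌋₊ + 1 := Nat.sInf_le hmem
  have h2 : (gallaiRamsey (2 * s + 1) t : ℝ) ≤ ⌊x⌋₊ + 1 := by exact_mod_cast h1
  have h3 := Nat.floor_le hx0
  rw [← hx]
  linarith

end Pool.Agent.Results.MP_89787e_co.OddColours
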