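import Pool.Agent.helper98.RPB.AS
import Pool.Agent.helper72.RQ.FA

set_option autoImplicit false

/-!
# MP_07c750_an: quantum unique ergodicity for almost all diagonal perturbations of baker maps

`B` is the tensor-product quantised baker map on `(ℂ ^ D) ^ {⊗ (k + 1)}` with one-site unitary `W`
(the Walsh-quantised baker map of Anantharaman and Nonnenmacher is the case where `W` is the inverse
Fourier matrix). It is perturbed by a diagonal unitary, `U_θ = diag (exp (2 π i θ x)) B`, where `θ`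
runs over the cube `[0, 1] ^ (D ^ (k + 1))`.

* If the doubly stochastic matrix `(|W a b| ^ 2)` is primitive, then outside a set of `θ` of
  measure `exp (- c k)` all eigenvectors of `U_θ` are equidistributed; in particular quantum
  unique ergodicity holds for almost every sequence of phases.
* If it is not primitive, equidistribution fails for every `θ` and all large `k`.
-/

namespace Pool.Agent.Results.MP_07c750_an.PerturbedBaker

open Pool.Agent.helper98.RPB MeasureTheory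

theorem result (D : ℕ) (hD : 2 ≤ D) (W : Matrix (Fin D) (Fin D) ℂ)
    (hW : W ∈ Matrix.unitaryGroup (Fin D) ℂ) :
    (IsMixing W →
      (∀ (l : ℕ) (ε : ℝ), 0 < ε → ∃ c : ℝ, 0 < c ∧ ∃ K : ℕ, ∀ k ≥ K,
        volume {θ : Word D (k + 1) → ℝ | θ ∈ Set.Icc 0 1 ∧
          ∃ ψ : Word D (k + 1) → ℂ, IsUnitEigenvector W θ ψ ∧
            ∃ (i : ℕ) (w : Word D l), i + l ≤ k + 1 ∧
              ε ≤ |cylWeight ψ i w - (1 / (D : ℝ)) ^ l|} ≤
          ENNReal.ofReal (Real.exp (-(c * k)))) ∧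
      ∀ (Ω : Type) (_ : MeasurableSpace Ω) (μ : Measure Ω)
        (Θ : ∀ k : ℕ, Ω → Word D (k + 1) → ℝ), (∀ k, Measurable (Θ k)) →
        (∀ k, μ.map (Θ k) = volume.restrict (Set.Icc 0 1)) →
        ∀ᵐ ω ∂μ, ∀ (l : ℕ) (ε : ℝ), 0 < ε → ∃ K : ℕ, ∀ k ≥ K, ∀ ψ : Word D (k + 1) → ℂ,
          IsUnitEigenvector W (Θ k ω) ψ → ∀ (i : ℕ) (w : Word D l), i + l ≤ k + 1 →
            |cylWeight ψ i w - (1 / (D : ℝ)) ^ l| < ε) ∧
    (¬ IsMixing W →
      ∃ l : ℕ, ∃ ε : ℝ, 0 < ε ∧ ∃ K : ℕ, ∀ k ≥ K, ∀ θ : Word D (k + 1) → ℝ,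
        ∃ ψ : Word D (k + 1) → ℂ, IsUnitEigenvector W θ ψ ∧
          ∃ (i : ℕ) (w : Word D l), i + l ≤ k + 1 ∧
            ε ≤ |cylWeight ψ i w - (1 / (D : ℝ)) ^ l|) :=
  ⟨fun h => ⟨fun l ε hε => mixing_que D hD W hW h l ε hε,
    fun _ _ μ Θ hΘ hlaw => ae_que D hD W hW h μ Θ hΘ hlaw⟩,
    fun h => Pool.Agent.helper72.RQ.not_mixing_fails D hD W hW h⟩

end Pool.Agent.Results.MP_07c750_an.PerturbedBaker
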